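import Pool.Agent.LYD.All

set_option autoImplicit false

open MeasureTheory Filter Topology

namespace Pool.Agent.Results.MP_54a40f_an.DenseOrbits

/-- For every atomless times-`p` invariant probability measure (of any entropy), almost every
point has a dense orbit under multiplication by `q`, for all `q ≥ 2` multiplicatively independent
of `p` simultaneously: its expansion in base `q` contains every finite block of digits. -/
theorem result (p : ℕ) (hp : 2 ≤ p) (μ : Measure UnitAddCircle) [IsProbabilityMeasure μ]
    (hat : ∀ x, μ {x} = 0) (hinv : μ.map (fun x : UnitAddCircle => p • x) = μ) :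
    ∀ᵐ x ∂μ, ∀ q : ℕ, 2 ≤ q → (∀ m n : ℕ, p ^ m = q ^ n → m = 0 ∧ n = 0) →
      Dense (Set.range fun j : ℕ => q ^ j • x) :=
  Pool.Agent.LYD.dense_orbits Pool.Agent.LYD.KEY (Pool.Agent.LYD.p_OMI Pool.Agent.LYD.p_PHI)
    p hp μ inferInstance hat hinv

end Pool.Agent.Results.MP_54a40f_an.DenseOrbits
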