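import Pool.Agent.LYN.Host4
import Pool.Agent.LYN.P_LTE
import Pool.Agent.LYN.P_MUL
import Pool.Agent.LYN.P_DEL

set_option autoImplicit false

open MeasureTheory Filter Topology

namespace Pool.Agent.Results.MP_54a40f_an.FiniteWindows

/-- The image in the circle of the interval `[u / p ^ m, (u + 1) / p ^ m)`: the points whose
first `m` digits in base `p` are those of `u` (modulo `p ^ m`). -/
def arc (p m u : ℕ) : Set UnitAddCircle :=
  (fun t : ℝ => (t : UnitAddCircle)) ''
    Set.Ico ((u : ℝ) / (p : ℝ) ^ m) (((u : ℝ) + 1) / (p : ℝ) ^ m)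

/-- Host's theorem with finite windows, without entropy and without invariance: if the
conditional probability of the first `n` digits in base `p` of `x`, given the next `K p ^ n`
digits, is at most `C_x w_n` with `∑ w_n < ∞`, then almost every `x` is normal in base `q`. -/
theorem result (p q : ℕ) (hp : 2 ≤ p) (hq : 2 ≤ q) (hpq : Nat.Coprime p q) (K : ℕ)
    (hK : q ^ p ≤ p ^ K) (w : ℕ → ℝ) (hw0 : ∀ n, 0 ≤ w n) (hw : Summable w)
    (μ : Measure UnitAddCircle) [IsProbabilityMeasure μ]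
    (h : ∀ᵐ x ∂μ, ∃ C : ℝ, ∀ n u : ℕ, x ∈ arc p (n + K * p ^ n) u →
      (μ (arc p (n + K * p ^ n) u)).toReal ≤ C * w n *
        ∑ c ∈ Finset.range (p ^ n),
          (μ (arc p (n + K * p ^ n) (u + c * p ^ (K * p ^ n)))).toReal) :
    ∀ᵐ x ∂μ, ∀ a : ℤ, a ≠ 0 →
      Tendsto (fun N : ℕ => (1 / (N : ℂ)) *
        ∑ n ∈ Finset.range N, (fourier a : C(UnitAddCircle, ℂ)) ((q ^ n) • x))
        atTop (𝓝 0) :=
  Pool.Agent.LYN.host (Pool.Agent.LYN.p_MUL Pool.Agent.LYN.p_LTE) Pool.Agent.LYN.p_DEL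
    p q hp hq hpq.symm K hK w hw0 hw μ h

end Pool.Agent.Results.MP_54a40f_an.FiniteWindows
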