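import Pool.Agent.LYD.All

set_option autoImplicit false

open MeasureTheory Filter Topology

namespace Pool.Agent.Results.MP_54a40f_an.OrbitFrequencies

open scoped Classical in
/-- For every times-`p` invariant probability measure (of any entropy) and every sequence
`N i → ∞`, almost every point `x` satisfies, for every `q ≥ 2` multiplicatively independent of
`p`: either every nonempty open set is visited by `q ^ j • x`, `j < N i`, with positive upper
frequency, or for some `m ≥ 1` the orbit of `m • x` tends to `0` in density. -/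
theorem result (p : ℕ) (hp : 2 ≤ p) (μ : Measure UnitAddCircle) [IsProbabilityMeasure μ]
    (hinv : μ.map (fun x : UnitAddCircle => p • x) = μ) (N : ℕ → ℕ)
    (hN : Tendsto N atTop atTop) :
    ∀ᵐ x ∂μ, ∀ q : ℕ, 2 ≤ q → (∀ m n : ℕ, p ^ m = q ^ n → m = 0 ∧ n = 0) →
      (∀ U : Set UnitAddCircle, IsOpen U → U.Nonempty → ¬ Tendsto (fun i =>
        (((Finset.range (N i)).filter fun j => q ^ j • x ∈ U).card : ℝ) / N i) atTop (𝓝 0)) ∨
      (∃ m : ℕ, 1 ≤ m ∧ ∀ ε : ℝ, 0 < ε → Tendsto (fun i =>
        (((Finset.range (N i)).filter fun j => ε ≤ ‖q ^ j • m • x‖).card : ℝ) / N i)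
          atTop (𝓝 0)) :=
  Pool.Agent.LYD.orbit_frequencies Pool.Agent.LYD.KEY Pool.Agent.LYD.p_PHI Pool.Agent.LYD.p_DFL
    p hp μ inferInstance hinv N hN

end Pool.Agent.Results.MP_54a40f_an.OrbitFrequencies
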