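import Pool.Agent.LYN.All2

set_option autoImplicit false

open MeasureTheory Filter Topology

namespace Pool.Agent.Results.MP_54a40f_an.UniversalConvolution

/-- One `×p`-invariant measure `η`, a factor of a given aperiodic system (of zero entropy, say),
close to the point mass at `0`, such that for every Borel probability measure `μ` on the circle
`μ ∗ η`-almost every point is normal in every base `q` which is multiplicatively independent
of `p`. -/
theorem result (p : ℕ) (hp : 2 ≤ p) (Y : Type) [MeasurableSpace Y]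
    [MeasurableSpace.CountablySeparated Y] (ν : Measure Y) [IsProbabilityMeasure ν] (S : Y → Y)
    (hS : MeasurePreserving S ν ν) (hper : ∀ᵐ y ∂ν, ∀ n : ℕ, 0 < n → S^[n] y ≠ y)
    (δ : ℝ) (hδ : 0 < δ) :
    ∃ (g : Y → UnitAddCircle) (η : Measure UnitAddCircle),
      Measurable g ∧ (∀ᵐ y ∂ν, g (S y) = p • g y) ∧ η = ν.map g ∧
      IsProbabilityMeasure η ∧ η.map (fun x : UnitAddCircle => p • x) = η ∧
      (∀ x, η {x} = 0) ∧ ∫ x, ‖x‖ ∂η ≤ δ ∧
      ∀ μ : Measure UnitAddCircle, IsProbabilityMeasure μ →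
        (∀ x, (μ ∗ η) {x} = 0) ∧
        (μ.map (fun x : UnitAddCircle => p • x) = μ →
          (μ ∗ η).map (fun x : UnitAddCircle => p • x) = μ ∗ η) ∧
        ∀ᵐ x ∂(μ ∗ η), ∀ q : ℕ, 2 ≤ q → (∀ m n : ℕ, p ^ m = q ^ n → m = 0 ∧ n = 0) →
          ∀ a : ℤ, a ≠ 0 →
            Tendsto (fun N : ℕ => (1 / (N : ℂ)) *
              ∑ n ∈ Finset.range N, (fourier a : C(UnitAddCircle, ℂ)) ((q ^ n) • x))
              atTop (𝓝 0) := by
  obtain ⟨g, hg, he, hprob, hinv, hna, hδ', hU⟩ :=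
    Pool.Agent.LYN.U_conv p hp Y ν S hS hper δ hδ
  refine ⟨g, ν.map g, hg, he, rfl, hprob, hinv, fun x => hna.measure_singleton x, hδ',
    fun μ hμ => ?_⟩
  obtain ⟨h1, h2, h3⟩ := hU μ hμ
  exact ⟨fun x => h1.measure_singleton x, h2, h3⟩

end Pool.Agent.Results.MP_54a40f_an.UniversalConvolution
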